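import Pool.Agent.H887R3.LW.MV10

/-!
# Coprime pairs of bounded height are quotients of polynomials of bounded length

For every `K` there is `N` such that for all coprime integer polynomials `F`, `G` (in any number
of variables, of any degrees) with `∫ log max(|F|, |G|) ≤ K` one has `F / G = Q / P` with nonzero
`P`, `Q` of length at most `N`; conversely such a pair has `∫ log max(|F|, |G|) ≤ log N`.
In particular every nonreciprocal irreducible polynomial of Mahler measure at most `B` divides a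
nonzero polynomial of length at most `N(B)`.
-/

set_option autoImplicit false

namespace Pool.Agent.Results.MP_6d22ea_nt.BoundedLength

noncomputable section

/-- Value of an integer polynomial in `k` variables at the torus point
`(exp (2 π i t_1), …, exp (2 π i t_k))`. -/
def value {k : ℕ} (F : MvPolynomial (Fin k) ℤ) (t : Fin k → ℝ) : ℂ :=
  MvPolynomial.eval (fun j : Fin k => Complex.exp (2 * (Real.pi : ℂ) * Complex.I * ((t j : ℝ) : ℂ)))
    (MvPolynomial.map (Int.castRingHom ℂ) F)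

/-- The Mahler measure of an integer polynomial in `k` variables. -/
def mahler {k : ℕ} (F : MvPolynomial (Fin k) ℤ) : ℝ :=
  Real.exp (∫ t in Set.Icc (0 : Fin k → ℝ) 1, Real.log ‖value F t‖)

/-- The integral of `log max(|F|, |G|)` over the torus. -/
def pairHeight {k : ℕ} (F G : MvPolynomial (Fin k) ℤ) : ℝ :=
  ∫ t in Set.Icc (0 : Fin k → ℝ) 1, Real.log (max ‖value F t‖ ‖value G t‖)

/-- The length (sum of the absolute values of the coefficients). -/
def length {k : ℕ} (F : MvPolynomial (Fin k) ℤ) : ℤ := ∑ s ∈ F.support, |F.coeff s|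

/-- The reciprocal polynomial `z_1^{d_1} ⋯ z_k^{d_k} F(1/z_1, …, 1/z_k)`, where `d_i` is the degree
of `F` in `z_i`. -/
def reciprocal {k : ℕ} (F : MvPolynomial (Fin k) ℤ) : MvPolynomial (Fin k) ℤ :=
  ∑ s ∈ F.support, MvPolynomial.monomial
    (Finsupp.equivFunOnFinite.symm fun i => F.degreeOf i - s i) (F.coeff s)

theorem result :
    (∀ K : ℝ, ∃ N : ℕ, ∀ (k : ℕ) (F G : MvPolynomial (Fin k) ℤ), F ≠ 0 → G ≠ 0 →
      IsRelPrime F G → pairHeight F G ≤ K → ∃ P Q : MvPolynomial (Fin k) ℤ, P ≠ 0 ∧ Q ≠ 0 ∧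
        P * F = Q * G ∧ length P ≤ N ∧ length Q ≤ N) ∧
    (∀ (N k : ℕ) (F G P Q : MvPolynomial (Fin k) ℤ), F ≠ 0 → IsRelPrime F G → Q ≠ 0 →
      P * F = Q * G → length P ≤ N → length Q ≤ N → pairHeight F G ≤ Real.log N) ∧
    (∀ B : ℝ, ∃ N : ℕ, ∀ (k : ℕ) (F : MvPolynomial (Fin k) ℤ), Irreducible F →
      ¬ Associated (reciprocal F) F → mahler F ≤ B →
      ∃ Q : MvPolynomial (Fin k) ℤ, Q ≠ 0 ∧ F ∣ Q ∧ length Q ≤ N) := by
  refine ⟨Pool.Agent.H887R3.LW.mult_bound, ?_, Pool.Agent.H887R3.LW.nonrecip_mult⟩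
  intro N k F G P Q hF hFG hQ h h1 h2
  exact Pool.Agent.H887R3.LW.mult_converse F G P Q hF hFG hQ h N h1 h2

end

end Pool.Agent.Results.MP_6d22ea_nt.BoundedLength
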