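import Pool.Agent.H887R3.LW.MV13

/-!
# The dimension filtration of the set of nonreciprocal Mahler measures

`N j` is the set of Mahler measures of the nonzero integer polynomials, in any number of variables,
that are coprime to their reciprocal polynomial and whose Newton polytope has dimension at least
`j`; `N 0` is the set of all nonreciprocal Mahler measures.  Every `N j` is closed, the limit
points of `N j` lie in `N (j + 1)`, those of `N 0` even in `N 2`, and `N m` lies in `[B, ∞)` for
`m ≥ m(B)`.  Hence the `(j + 1)`-st derived set of the set of nonreciprocal Mahler measures consists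
of measures of nonreciprocal polynomials with Newton polytope of dimension at least `j + 2`.
-/

set_option autoImplicit false

namespace Pool.Agent.Results.MP_6d22ea_nt.DimensionFiltration

noncomputable section

/-- Value of an integer polynomial in `k` variables at the torus point
`(exp (2 π i t_1), …, exp (2 π i t_k))`. -/
def value {k : ℕ} (F : MvPolynomial (Fin k) ℤ) (t : Fin k → ℝ) : ℂ :=
  MvPolynomial.eval (fun j : Fin k => Complex.exp (2 * (Real.pi : ℂ) * Complex.I * ((t j : ℝ) : ℂ)))
    (MvPolynomial.map (Int.castRingHom ℂ) F)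

/-- The Mahler measure of an integer polynomial in `k` variables. -/
def mahler {k : ℕ} (F : MvPolynomial (Fin k) ℤ) : ℝ :=
  Real.exp (∫ t in Set.Icc (0 : Fin k → ℝ) 1, Real.log ‖value F t‖)

/-- The reciprocal polynomial `z_1^{d_1} ⋯ z_k^{d_k} F(1/z_1, …, 1/z_k)`, where `d_i` is the degree
of `F` in `z_i`. -/
def reciprocal {k : ℕ} (F : MvPolynomial (Fin k) ℤ) : MvPolynomial (Fin k) ℤ :=
  ∑ s ∈ F.support, MvPolynomial.monomial
    (Finsupp.equivFunOnFinite.symm fun i => F.degreeOf i - s i) (F.coeff s)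

/-- The dimension of the affine hull of the exponent vectors of `F` (the dimension of its Newton
polytope). -/
def newtonDim {k : ℕ} (F : MvPolynomial (Fin k) ℤ) : ℕ :=
  Module.finrank ℚ (vectorSpan ℚ ((fun s : Fin k →₀ ℕ => fun i : Fin k => ((s i : ℕ) : ℚ)) ''
    (F.support : Set (Fin k →₀ ℕ))))

/-- The Mahler measures of the polynomials without nonconstant self-reciprocal irreducible factor
of Mahler measure greater than one. -/
def nonreciprocal : Set ℝ :=
  {x : ℝ | ∃ k : ℕ, 1 ≤ k ∧ ∃ F : MvPolynomial (Fin k) ℤ, F ≠ 0 ∧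
    (∀ Q : MvPolynomial (Fin k) ℤ, Irreducible Q → Q ∣ F →
      Q.totalDegree = 0 ∨ mahler Q = 1 ∨ ¬ Associated (reciprocal Q) Q) ∧ x = mahler F}

/-- The Mahler measures of the nonzero polynomials coprime to their reciprocal polynomial, with
Newton polytope of dimension at least `j`. -/
def N (j : ℕ) : Set ℝ :=
  {x : ℝ | ∃ k : ℕ, ∃ F : MvPolynomial (Fin k) ℤ, F ≠ 0 ∧ IsRelPrime F (reciprocal F) ∧
    j ≤ newtonDim F ∧ x = mahler F}

theorem result :
    nonreciprocal = N 0 ∧
    (∀ j : ℕ, IsClosed (N j)) ∧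
    (∀ j : ℕ, derivedSet (N j) ⊆ N (j + 1)) ∧
    derivedSet (N 0) ⊆ N 2 ∧
    (∀ B : ℝ, ∃ m : ℕ, ∀ x ∈ N m, B ≤ x) ∧
    (∀ j : ℕ, derivedSet^[j + 1] nonreciprocal ⊆ N (j + 2)) :=
  ⟨Pool.Agent.H887R3.LW.NR_eq, Pool.Agent.H887R3.LW.NN_closed, Pool.Agent.H887R3.LW.NN_derived,
    Pool.Agent.H887R3.LW.derived_NN_zero, Pool.Agent.H887R3.LW.NN_large,
    Pool.Agent.H887R3.LW.NR_derived⟩

end

end Pool.Agent.Results.MP_6d22ea_nt.DimensionFiltration
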