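import Pool.Agent.H887R3.LW.MV9

/-!
# The derived sets of the sets of Mahler measures of coprime pairs of bounded height

`L K` is the set of Mahler measures of the nonzero integer polynomials `F` (in any number of
variables) having a coprime companion `G` with `∫ log max(|F|, |G|) ≤ K`.  The sets `L K` are
closed and increase to the set of all Mahler measures (starting file `ClosedExhaustion`).

Here: the `j`-th derived set of `L K` consists of Mahler measures of polynomials `F` with a
companion `G` such that the exponents of `F` and `G` together span an affine space of dimension at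
least `j`, there is no such pair for large `j`, and therefore `L K` has finite Cantor-Bendixson
rank.  In particular the least element of the `j`-th derived set of the set of Mahler measures of
nonreciprocal polynomials tends to infinity with `j`.
-/

set_option autoImplicit false

namespace Pool.Agent.Results.MP_6d22ea_nt.FiniteRank

noncomputable section

/-- Value of an integer polynomial in `k` variables at the torus point
`(exp (2 π i t_1), …, exp (2 π i t_k))`. -/
def value {k : ℕ} (F : MvPolynomial (Fin k) ℤ) (t : Fin k → ℝ) : ℂ :=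
  MvPolynomial.eval (fun j : Fin k => Complex.exp (2 * (Real.pi : ℂ) * Complex.I * ((t j : ℝ) : ℂ)))
    (MvPolynomial.map (Int.castRingHom ℂ) F)

/-- The Mahler measure of an integer polynomial in `k` variables. -/
def mahler {k : ℕ} (F : MvPolynomial (Fin k) ℤ) : ℝ :=
  Real.exp (∫ t in Set.Icc (0 : Fin k → ℝ) 1, Real.log ‖value F t‖)

/-- The integral of `log max(|F|, |G|)` over the torus. -/
def pairHeight {k : ℕ} (F G : MvPolynomial (Fin k) ℤ) : ℝ :=
  ∫ t in Set.Icc (0 : Fin k → ℝ) 1, Real.log (max ‖value F t‖ ‖value G t‖)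

/-- The dimension of the affine hull of the exponent vectors of `F` and `G`. -/
def jointDim {k : ℕ} (F G : MvPolynomial (Fin k) ℤ) : ℕ :=
  Module.finrank ℚ (vectorSpan ℚ ((fun s : Fin k →₀ ℕ => fun i : Fin k => ((s i : ℕ) : ℚ)) ''
    ((F.support ∪ G.support : Finset (Fin k →₀ ℕ)) : Set (Fin k →₀ ℕ))))

/-- The Mahler measures of the nonzero polynomials `F` having a coprime companion `G ≠ 0` with
`∫ log max(|F|, |G|) ≤ K`. -/
def L (K : ℝ) : Set ℝ :=
  {x : ℝ | ∃ k : ℕ, 1 ≤ k ∧ ∃ F G : MvPolynomial (Fin k) ℤ, F ≠ 0 ∧ G ≠ 0 ∧ IsRelPrime F G ∧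
    pairHeight F G ≤ K ∧ x = mahler F}

/-- The same with the exponents of `F` and `G` spanning an affine space of dimension at
least `j`. -/
def LDim (K : ℝ) (j : ℕ) : Set ℝ :=
  {x : ℝ | ∃ k : ℕ, ∃ F G : MvPolynomial (Fin k) ℤ, F ≠ 0 ∧ G ≠ 0 ∧ IsRelPrime F G ∧
    pairHeight F G ≤ K ∧ j ≤ jointDim F G ∧ x = mahler F}

/-- The reciprocal polynomial `z_1^{d_1} ⋯ z_k^{d_k} F(1/z_1, …, 1/z_k)`, where `d_i` is the degree
of `F` in `z_i`. -/
def reciprocal {k : ℕ} (F : MvPolynomial (Fin k) ℤ) : MvPolynomial (Fin k) ℤ :=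
  ∑ s ∈ F.support, MvPolynomial.monomial
    (Finsupp.equivFunOnFinite.symm fun i => F.degreeOf i - s i) (F.coeff s)

/-- The Mahler measures of the polynomials without nonconstant self-reciprocal irreducible factor
of Mahler measure greater than one. -/
def nonreciprocal : Set ℝ :=
  {x : ℝ | ∃ k : ℕ, 1 ≤ k ∧ ∃ F : MvPolynomial (Fin k) ℤ, F ≠ 0 ∧
    (∀ Q : MvPolynomial (Fin k) ℤ, Irreducible Q → Q ∣ F →
      Q.totalDegree = 0 ∨ mahler Q = 1 ∨ ¬ Associated (reciprocal Q) Q) ∧ x = mahler F}

theorem result :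
    (∀ (K : ℝ) (j : ℕ), derivedSet^[j] (L K) ⊆ LDim K j) ∧
    (∀ K : ℝ, ∃ m : ℕ, LDim K m = ∅ ∧ derivedSet^[m] (L K) = ∅) ∧
    (∀ B : ℝ, ∃ m : ℕ, ∀ x ∈ derivedSet^[m] nonreciprocal, B ≤ x) := by
  refine ⟨Pool.Agent.H887R3.LW.iterate_derived, fun K => ?_, Pool.Agent.H887R3.LW.NR_rank⟩
  obtain ⟨m, hm⟩ := Pool.Agent.H887R3.LW.RJ_empty K
  exact ⟨m, hm, Set.subset_eq_empty (Pool.Agent.H887R3.LW.iterate_derived K m) hm⟩

end

end Pool.Agent.Results.MP_6d22ea_nt.FiniteRank
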