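import Pool.Agent.H887R3.LW.MV17

/-!
# The spectrum of the Mahler measures of coprime pairs

`T j` is the set of the triples `(M(F), M(G), M(F + z_0 G))`, where `F`, `G` are coprime integer
polynomials in any number of variables `z_1, …, z_k` and the Newton polytope of `F + z_0 G` has
dimension at least `j`.  Every `T j` is closed in `ℝ³`, its limit points lie in `T (j + 1)`, and the
third coordinates on `T m` are at least `B` for `m ≥ m(B)`.

`L K j` is the set of the measures `M(F)` of the polynomials `F` having a coprime companion `G` with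
`M(F + z_0 G) ≤ K` and `F + z_0 G` of Newton dimension at least `j`.  The sets `L K 0` increase to
the set of all Mahler measures; every `L K j` is closed, the `j`-th derived set of `L K 0` lies in
`L K (j + 1)`, and `L K m` is empty for large `m`.
-/

set_option autoImplicit false

namespace Pool.Agent.Results.MP_6d22ea_nt.SpectrumOfPairs

noncomputable section

/-- Value of an integer polynomial in `k` variables at the torus point
`(exp (2 π i t_1), …, exp (2 π i t_k))`. -/
def value {k : ℕ} (F : MvPolynomial (Fin k) ℤ) (t : Fin k → ℝ) : ℂ :=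
  MvPolynomial.eval (fun j : Fin k => Complex.exp (2 * (Real.pi : ℂ) * Complex.I * ((t j : ℝ) : ℂ)))
    (MvPolynomial.map (Int.castRingHom ℂ) F)

/-- The Mahler measure of an integer polynomial in `k` variables. -/
def mahler {k : ℕ} (F : MvPolynomial (Fin k) ℤ) : ℝ :=
  Real.exp (∫ t in Set.Icc (0 : Fin k → ℝ) 1, Real.log ‖value F t‖)

/-- The dimension of the affine hull of the exponent vectors of `F` (the dimension of its Newton
polytope). -/
def newtonDim {k : ℕ} (F : MvPolynomial (Fin k) ℤ) : ℕ :=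
  Module.finrank ℚ (vectorSpan ℚ ((fun s : Fin k →₀ ℕ => fun i : Fin k => ((s i : ℕ) : ℚ)) ''
    (F.support : Set (Fin k →₀ ℕ))))

/-- The polynomial `F + z_0 G` for `F`, `G` in the variables `z_1, …, z_k`. -/
def linear {k : ℕ} (F G : MvPolynomial (Fin k) ℤ) : MvPolynomial (Fin (k + 1)) ℤ :=
  MvPolynomial.rename Fin.succ F + MvPolynomial.X 0 * MvPolynomial.rename Fin.succ G

/-- The triples `(M(F), M(G), M(F + z_0 G))` for nonzero coprime `F`, `G` such that the Newton
polytope of `F + z_0 G` has dimension at least `j`. -/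
def T (j : ℕ) : Set (ℝ × ℝ × ℝ) :=
  {x | ∃ k : ℕ, ∃ F G : MvPolynomial (Fin k) ℤ, F ≠ 0 ∧ G ≠ 0 ∧ IsRelPrime F G ∧
    j ≤ newtonDim (linear F G) ∧ x = (mahler F, mahler G, mahler (linear F G))}

/-- The measures of the nonzero polynomials `F` having a coprime companion `G ≠ 0` with
`M(F + z_0 G) ≤ K` and `F + z_0 G` of Newton dimension at least `j`. -/
def L (K : ℝ) (j : ℕ) : Set ℝ :=
  {x | ∃ k : ℕ, ∃ F G : MvPolynomial (Fin k) ℤ, F ≠ 0 ∧ G ≠ 0 ∧ IsRelPrime F G ∧
    mahler (linear F G) ≤ K ∧ j ≤ newtonDim (linear F G) ∧ x = mahler F}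

theorem result :
    (∀ j : ℕ, IsClosed (T j)) ∧
    (∀ j : ℕ, derivedSet (T j) ⊆ T (j + 1)) ∧
    (∀ j : ℕ, derivedSet^[j] (T 0) ⊆ T (j + 1)) ∧
    (∀ B : ℝ, ∃ m : ℕ, ∀ x ∈ T m, B ≤ x.2.2) ∧
    (∀ (k : ℕ) (F : MvPolynomial (Fin k) ℤ), F ≠ 0 → ∃ K : ℝ, mahler F ∈ L K 0) ∧
    (∀ (K : ℝ) (j : ℕ), IsClosed (L K j)) ∧
    (∀ (K : ℝ) (j : ℕ), derivedSet^[j] (L K 0) ⊆ L K (j + 1)) ∧
    (∀ K : ℝ, ∃ m : ℕ, L K m = ∅) :=
  ⟨Pool.Agent.H887R3.LW.TT_closed, Pool.Agent.H887R3.LW.TT_derived,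
    Pool.Agent.H887R3.LW.TT_iterate, Pool.Agent.H887R3.LW.TT_large,
    fun _ F hF => Pool.Agent.H887R3.LW.LT_exhaust F hF, Pool.Agent.H887R3.LW.LT_closed,
    Pool.Agent.H887R3.LW.LT_iterate, Pool.Agent.H887R3.LW.LT_empty⟩

end

end Pool.Agent.Results.MP_6d22ea_nt.SpectrumOfPairs
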